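import Pool.Agent.Helper4.TL.StD
import Pool.Agent.Helper93.TLE.Gen

/-!
# The rows of the Hecke operators `T_3`, `T_7` (level `5^n`, twisted symbols)
-/

set_option autoImplicit false

namespace Pool.Agent.Helper93.TL

open Pool.Agent.Helper14.CV (Homog EqC act Tl)
open Pool.Agent.Helper14.W5 (e5 tr5 Fn5 Tm opL op5 S5Trm edge5 rY5)
open Pool.Agent.Helper4.TL
open Pool.Agent.Helper93.TLE (Chk row_of_chk)

/-- The value of a list of operators. -/
theorem opL_apply5 (L : List Tm) {q q' : ℕ} (F : Fn5 q q') (x : ZMod q) (y : ZMod q') :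
    opL L F x y = (L.map fun t => t.1 • tr5 t.2.1 t.2.2.1 t.2.2.2.1 t.2.2.2.2 F x y).sum := by
  induction L with
  | nil => simp [opL]
  | cons t L ih =>
    have e : opL (t :: L) F x y = (((t.1 : ℤ) : ZMod 5) • op5 t.2.1 t.2.2.1 t.2.2.2.1 t.2.2.2.2) F x y +
        opL L F x y := by
      simp [opL]
    rw [e, ih, List.map_cons, List.sum_cons, zsmul_eq_mul]
    rfl

/-- The row of `T_l` from a checked pair of lists. -/
theorem row5 (hf : THkF) (ht : TTre) (hm : S5Trm) (l : ℕ) (hl : l.Prime) (hl5 : l ≠ 5) (hl2 : l ≠ 2)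
    (J : List ℤ) (hJn : J.Nodup) (hJl : J.length = l)
    (hJd : ∀ j ∈ J, ∀ j' ∈ J, (l : ℤ) ∣ j - j' → j = j') (hJe : ∀ j ∈ J, eps 1 j 0 l = 1)
    (u1 u2 v1 v2 : ℤ) (hu : u1 ≠ 0 ∨ u2 ≠ 0) (hv : v1 ≠ 0 ∨ v2 ≠ 0) (L0 L1 : List Tm)
    (hc : Chk 5 l J 0 2 u1 u2 v1 v2 L0 L1)
    (r s : ℕ) (G : ℤ → ℤ → ZMod 5) (hG : SymE 5 r (s + 1) G) :
    (edgeE 0 u1 u2 v1 v2 (Tl l (2 * 5 ^ r) G) : Fn5 (5 ^ r) (5 ^ s)) =
      opL L0 (pfE G 0) + opL L1 (pfE G 1) := by
  funext x y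
  have hl0 : (l : ℤ) ≠ 0 := by exact_mod_cast hl.ne_zero
  have hpl : ¬ (5 : ℤ) ∣ (l : ℤ) := by
    intro h
    have h' : (5 : ℕ) ∣ l := by exact_mod_cast h
    exact hl5 (((Nat.prime_dvd_prime_iff_eq Nat.prime_five hl).1 h').symm)
  have hF := hf (ZMod 5) inferInstance r s l G J.toFinset hl hl5 hl2 hG
    (by rw [List.toFinset_card_of_nodup hJn, hJl])
    (fun j hj j' hj' => hJd j (List.mem_toFinset.1 hj) j' (List.mem_toFinset.1 hj'))
    u1 u2 v1 v2 hu hv x y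
  rw [List.sum_toFinset _ hJn] at hF
  have key := row_of_chk (R := ZMod 5) (X := ZMod (5 ^ r) × ZMod (5 ^ s)) 5 l hl0 hpl
    (by norm_num) J
    (fun a b c d F z => tr5 a b c d (fun x y => F (x, y)) z.1 z.2)
    (fun a b c d => ⟨fun z => (((b : ZMod (5 ^ r)) + d * z.1) * ((a : ZMod (5 ^ r)) + 5 * c * z.1)⁻¹,
      ((c : ZMod (5 ^ s)) + a * z.2) * ((d : ZMod (5 ^ s)) + 5 * b * z.2)⁻¹), fun F z => rfl⟩)
    (fun F a b c d a' b' c' d' ha hd ha' hd' => by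
      funext z
      have h := (hm (ZMod 5) r s (fun x y => F (x, y))).1 a b c d a' b' c' d' ha hd ha' hd'
      exact congrFun (congrFun h z.1) z.2)
    (fun u1 u2 v1 v2 z => edgeE 0 u1 u2 v1 v2 G z.1 z.2) G hG.1 0 2
    (fun z => ⟨sgE 0 z.1 z.2, 1, 5 ^ 0 * (z.1.val : ℤ), 5 * rY5 0 z.1 z.2,
      1 + 5 ^ (0 + 1) * (z.1.val : ℤ) * rY5 0 z.1 z.2, by
        have : (1 : ℤ) * (1 + 5 ^ (0 + 1) * (z.1.val : ℤ) * rY5 0 z.1 z.2) -
          5 ^ 0 * (z.1.val : ℤ) * (5 * rY5 0 z.1 z.2) = 1 := by ring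
        rw [this]; exact one_ne_zero,
      fun u1 u2 v1 v2 => by
        unfold edgeE edge5
        simp only [one_mul]⟩)
    (fun a b c d e hd z => by
      have h := ht (ZMod 5) inferInstance r s G hG a b c d 1 e 0 1 hd (Or.inl one_ne_zero)
        (Or.inr one_ne_zero) z.1 z.2
      simp only [mul_one, mul_zero, zero_add] at h
      exact h)
    u1 u2 v1 v2 L0 L1 hc (x, y)
    (edgeE 0 u1 u2 v1 v2 (Tl l (2 * 5 ^ r) G) x y) (by
      rw [hF]
      congr 2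
      refine List.map_congr_left fun j hj => ?_
      rw [hJe j hj, one_smul])
  rw [key]
  show _ = opL L0 (pfE G 0) x y + opL L1 (pfE G 1) x y
  rw [opL_apply5, opL_apply5]
  rfl

/-- HK3. -/
theorem hHk3 (hf : THkF) (ht : TTre) (hm : S5Trm) : THk3 := by
  intro r s G hG i
  rw [Fin.sum_univ_two]
  fin_cases i
  · exact row5 hf ht hm 3 (by norm_num) (by norm_num) (by norm_num) [-2, 0, 2] (by decide) rfl
      (by decide) (by decide) 1 0 0 1 (Or.inl one_ne_zero) (Or.inr one_ne_zero) (T3E 0 0) (T3E 0 1)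
      (by decide +kernel) r s G hG
  · exact row5 hf ht hm 3 (by norm_num) (by norm_num) (by norm_num) [-2, 0, 2] (by decide) rfl
      (by decide) (by decide) 1 2 0 1 (Or.inl one_ne_zero) (Or.inr one_ne_zero) (T3E 1 0) (T3E 1 1)
      (by decide +kernel) r s G hG

/-- HK7. -/
theorem hHk7 (hf : THkF) (ht : TTre) (hm : S5Trm) : THk7 := by
  intro r s G hG i
  rw [Fin.sum_univ_two]
  fin_cases i
  · exact row5 hf ht hm 7 (by norm_num) (by norm_num) (by norm_num) [-6, -4, -2, 0, 2, 4, 6] (by decide)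
      rfl (by decide) (by decide) 1 0 0 1 (Or.inl one_ne_zero) (Or.inr one_ne_zero) (T7E 0 0) (T7E 0 1)
      (by decide +kernel) r s G hG
  · exact row5 hf ht hm 7 (by norm_num) (by norm_num) (by norm_num) [-6, -4, -2, 0, 2, 4, 6] (by decide)
      rfl (by decide) (by decide) 1 2 0 1 (Or.inl one_ne_zero) (Or.inr one_ne_zero) (T7E 1 0) (T7E 1 1)
      (by decide +kernel) r s G hG

end Pool.Agent.Helper93.TL
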